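import Mathlib
import Pool.Agent.Helper50.Rec.Defs
import Pool.Agent.Helper50.Rec.Basic

/-!
# REC-2: monotonicity of the box averages
-/

open MeasureTheory Polynomial Finset Filter Topology
open scoped BigOperators ComplexConjugate

namespace Pool.Agent.Helper50.Rec

variable {X : Type} [MeasurableSpace X]

namespace Sys

variable (S : Sys X)

lemma dd_comm (a b c d : ℤ) (f : X → ℂ) : S.dd a b (S.dd c d f) = S.dd c d (S.dd a b f) := by
  funext x
  simp only [dd, map_mul, Complex.conj_conj, ← S.τ_add]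
  rw [add_comm c a, add_comm d a, add_comm c b, add_comm d b]
  ring

/-- box averages with different side lengths -/
noncomputable def Sg : List ℕ → (X → ℂ) → ℝ
  | [], f => ‖S.int f‖ ^ 2
  | M :: L, f => ((M : ℝ) ^ 2)⁻¹ * ∑ a ∈ range M, ∑ b ∈ range M, Sg L (S.dd a b f)

lemma Sg_swap (M M' : ℕ) (L : List ℕ) (f : X → ℂ) :
    S.Sg (M :: M' :: L) f = S.Sg (M' :: M :: L) f := by
  simp only [Sg, Finset.mul_sum]
  have e1 : ∀ a b a' b' : ℕ, ((M : ℝ) ^ 2)⁻¹ * (((M' : ℝ) ^ 2)⁻¹ * S.Sg L (S.dd a' b' (S.dd a b f)))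
      = ((M' : ℝ) ^ 2)⁻¹ * (((M : ℝ) ^ 2)⁻¹ * S.Sg L (S.dd a b (S.dd a' b' f))) := by
    intro a b a' b'
    rw [S.dd_comm a' b' a b]; ring
  simp only [e1]
  rw [show (∑ a ∈ range M, ∑ b ∈ range M, ∑ a' ∈ range M', ∑ b' ∈ range M',
      ((M' : ℝ) ^ 2)⁻¹ * (((M : ℝ) ^ 2)⁻¹ * S.Sg L (S.dd a b (S.dd a' b' f)))) =
      ∑ a ∈ range M, ∑ a' ∈ range M', ∑ b ∈ range M, ∑ b' ∈ range M',
      ((M' : ℝ) ^ 2)⁻¹ * (((M : ℝ) ^ 2)⁻¹ * S.Sg L (S.dd a b (S.dd a' b' f))) from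
    Finset.sum_congr rfl fun a _ => Finset.sum_comm]
  rw [Finset.sum_comm]
  refine Finset.sum_congr rfl fun a' _ => ?_
  rw [show (∑ a ∈ range M, ∑ b ∈ range M, ∑ b' ∈ range M',
      ((M' : ℝ) ^ 2)⁻¹ * (((M : ℝ) ^ 2)⁻¹ * S.Sg L (S.dd a b (S.dd a' b' f)))) =
      ∑ a ∈ range M, ∑ b' ∈ range M', ∑ b ∈ range M,
      ((M' : ℝ) ^ 2)⁻¹ * (((M : ℝ) ^ 2)⁻¹ * S.Sg L (S.dd a b (S.dd a' b' f))) from
    Finset.sum_congr rfl fun a _ => Finset.sum_comm]
  exact Finset.sum_comm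

lemma int_dd_shift (a b c : ℤ) (f : X → ℂ) :
    S.int (S.dd (a + c) (b + c) f) = S.int (S.dd a b f) := by
  rw [← S.int_sh c (S.dd a b f)]
  congr 1
  funext x
  simp only [dd, sh, S.τ_add]

/-- the square of an integral as an integral over the product -/
lemma norm_int_dd_sq (f : X → ℂ) (a b : ℤ) :
    ((‖S.int (S.dd a b f)‖ ^ 2 : ℝ) : ℂ) =
      ∫ z : X × X, (f (S.τ a z.1) * conj (f (S.τ a z.2))) *
        conj (f (S.τ b z.1) * conj (f (S.τ b z.2))) ∂(S.μ.prod S.μ) := by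
  have h1 : (∫ z : X × X, (f (S.τ a z.1) * conj (f (S.τ a z.2))) *
        conj (f (S.τ b z.1) * conj (f (S.τ b z.2))) ∂(S.μ.prod S.μ)) =
      ∫ z : X × X, S.dd a b f z.1 * conj (S.dd a b f z.2) ∂(S.μ.prod S.μ) := by
    congr 1; funext z
    simp only [dd, map_mul, Complex.conj_conj]
    ring
  rw [h1, integral_prod_mul (μ := S.μ) (ν := S.μ) (S.dd a b f) (fun y => conj (S.dd a b f y)),
    integral_conj, ← Complex.normSq_eq_norm_sq, ← Complex.mul_conj]
  rfl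

lemma psd (f : X → ℂ) (hf : B1 f) (M : ℕ) :
    0 ≤ ∑ a ∈ range M, ∑ b ∈ range M,
      (‖S.int (S.dd a b f)‖ ^ 2 - ‖S.int (S.dd a ((M : ℤ) + b) f)‖ ^ 2
        - ‖S.int (S.dd ((M : ℤ) + a) b f)‖ ^ 2
        + ‖S.int (S.dd ((M : ℤ) + a) ((M : ℤ) + b) f)‖ ^ 2) := by
  set v : ℤ → X × X → ℂ := fun a z => f (S.τ a z.1) * conj (f (S.τ a z.2)) with hv
  have hvB : ∀ a, B1 (v a) := by
    intro a
    refine ⟨?_, fun z => ?_⟩
    · exact (hf.1.comp ((S.τ_meas a).comp measurable_fst)).mul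
        (Complex.continuous_conj.measurable.comp (hf.1.comp ((S.τ_meas a).comp measurable_snd)))
    · simp only [hv, norm_mul, RCLike.norm_conj]
      exact mul_le_one₀ (hf.2 _) (norm_nonneg _) (hf.2 _)
  have hint : ∀ a b, Integrable (fun z => v a z * conj (v b z)) (S.μ.prod S.μ) := fun a b =>
    Integrable.of_bound ((hvB a).mul (hvB b).conj).1.aestronglyMeasurable 1
      (Filter.Eventually.of_forall ((hvB a).mul (hvB b).conj).2)
  have key : ∀ a b : ℤ, ((‖S.int (S.dd a b f)‖ ^ 2 : ℝ) : ℂ) =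
      ∫ z, v a z * conj (v b z) ∂(S.μ.prod S.μ) := fun a b => S.norm_int_dd_sq f a b
  have h1 : ((∑ a ∈ range M, ∑ b ∈ range M,
      (‖S.int (S.dd a b f)‖ ^ 2 - ‖S.int (S.dd a ((M : ℤ) + b) f)‖ ^ 2
        - ‖S.int (S.dd ((M : ℤ) + a) b f)‖ ^ 2
        + ‖S.int (S.dd ((M : ℤ) + a) ((M : ℤ) + b) f)‖ ^ 2) : ℝ) : ℂ) =
      ((∫ z, ‖∑ a ∈ range M, (v a z - v ((M : ℤ) + a) z)‖ ^ 2 ∂(S.μ.prod S.μ) : ℝ) : ℂ) := by
    rw [← integral_complex_ofReal]
    have h2 : ∀ z, ((‖∑ a ∈ range M, (v a z - v ((M : ℤ) + a) z)‖ ^ 2 : ℝ) : ℂ) =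
        ∑ a ∈ range M, ∑ b ∈ range M, (v a z * conj (v b z) - v a z * conj (v ((M : ℤ) + b) z)
          - v ((M : ℤ) + a) z * conj (v b z) +
          v ((M : ℤ) + a) z * conj (v ((M : ℤ) + b) z)) := by
      intro z
      rw [← Complex.normSq_eq_norm_sq, ← Complex.mul_conj, map_sum, Finset.sum_mul_sum]
      refine Finset.sum_congr rfl fun a _ => Finset.sum_congr rfl fun b _ => ?_
      rw [map_sub]; ring
    simp only [h2]
    rw [integral_finsetSum]
    · push_cast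
      refine Finset.sum_congr rfl fun a _ => ?_
      rw [integral_finsetSum]
      · refine Finset.sum_congr rfl fun b _ => ?_
        rw [integral_add, integral_sub, integral_sub]
        · have k1 := key a b
          have k2 := key a ((M : ℤ) + b)
          have k3 := key ((M : ℤ) + a) b
          have k4 := key ((M : ℤ) + a) ((M : ℤ) + b)
          push_cast at k1 k2 k3 k4
          rw [k1, k2, k3, k4]
        · exact hint _ _
        · exact hint _ _
        · exact (hint _ _).sub (hint _ _)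
        · exact hint _ _
        · exact ((hint _ _).sub (hint _ _)).sub (hint _ _)
        · exact hint _ _
      · intro b _
        exact (((hint _ _).sub (hint _ _)).sub (hint _ _)).add (hint _ _)
    · intro a _
      refine integrable_finsetSum _ fun b _ => ?_
      exact (((hint _ _).sub (hint _ _)).sub (hint _ _)).add (hint _ _)
  have h3 := Complex.ofReal_injective h1
  rw [h3]
  exact integral_nonneg fun z => by positivity

/-- doubling the side length decreases the one-dimensional box average -/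
lemma Sg_one_double (f : X → ℂ) (hf : B1 f) (M : ℕ) : S.Sg [2 * M] f ≤ S.Sg [M] f := by
  simp only [Sg]
  rcases Nat.eq_zero_or_pos M with h0 | h0
  · subst h0; simp
  have hM : (0 : ℝ) < M := by exact_mod_cast h0
  have h1 := S.psd f hf M
  have h2 : ∀ a b : ℕ, ‖S.int (S.dd ((M : ℤ) + a) ((M : ℤ) + b) f)‖ ^ 2 =
      ‖S.int (S.dd a b f)‖ ^ 2 := by
    intro a b
    rw [add_comm (M : ℤ) a, add_comm (M : ℤ) b, S.int_dd_shift]
  have h3 : ∑ a ∈ range (2 * M), ∑ b ∈ range (2 * M), ‖S.int (S.dd a b f)‖ ^ 2 ≤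
      4 * ∑ a ∈ range M, ∑ b ∈ range M, ‖S.int (S.dd a b f)‖ ^ 2 := by
    rw [two_mul, Finset.sum_range_add]
    have h4 : ∀ a : ℤ, ∑ b ∈ range (M + M), ‖S.int (S.dd a b f)‖ ^ 2 =
        ∑ b ∈ range M, ‖S.int (S.dd a b f)‖ ^ 2 +
          ∑ b ∈ range M, ‖S.int (S.dd a ((M : ℤ) + b) f)‖ ^ 2 := by
      intro a
      rw [Finset.sum_range_add]
      push_cast
      rfl
    simp only [h4, Finset.sum_add_distrib, Nat.cast_add]
    simp only [Finset.sum_add_distrib, Finset.sum_sub_distrib, h2] at h1 ⊢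
    linarith
  push_cast
  rw [mul_pow, mul_inv]
  have h5 : (0 : ℝ) < ((M : ℝ) ^ 2)⁻¹ := by positivity
  calc (2 ^ 2 : ℝ)⁻¹ * ((M : ℝ) ^ 2)⁻¹ *
        ∑ a ∈ range (2 * M), ∑ b ∈ range (2 * M), ‖S.int (S.dd a b f)‖ ^ 2
      ≤ (2 ^ 2 : ℝ)⁻¹ * ((M : ℝ) ^ 2)⁻¹ *
        (4 * ∑ a ∈ range M, ∑ b ∈ range M, ‖S.int (S.dd a b f)‖ ^ 2) := by
        gcongr
    _ = ((M : ℝ) ^ 2)⁻¹ * ∑ a ∈ range M, ∑ b ∈ range M, ‖S.int (S.dd a b f)‖ ^ 2 := by ring

lemma Sg_double (M : ℕ) (L : List ℕ) : ∀ f : X → ℂ, B1 f →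
    S.Sg (2 * M :: L) f ≤ S.Sg (M :: L) f := by
  induction L with
  | nil => intro f hf; exact S.Sg_one_double f hf M
  | cons M' L ih =>
    intro f hf
    rw [S.Sg_swap (2 * M) M' L f, S.Sg_swap M M' L f]
    simp only [Sg.eq_2 (L := 2 * M :: L), Sg.eq_2 (L := M :: L)]
    gcongr with a _ b _
    exact ih _ (hf.dd S a b)

lemma Sg_nonneg (L : List ℕ) : ∀ f : X → ℂ, 0 ≤ S.Sg L f := by
  induction L with
  | nil => intro f; simp only [Sg]; positivity
  | cons M L ih =>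
    intro f
    simp only [Sg]
    exact mul_nonneg (by positivity)
      (Finset.sum_nonneg fun a _ => Finset.sum_nonneg fun b _ => ih _)

lemma Sg_head_pow (r s : ℕ) (h : r ≤ s) (L : List ℕ) (f : X → ℂ) (hf : B1 f) :
    S.Sg (2 ^ s :: L) f ≤ S.Sg (2 ^ r :: L) f := by
  induction s, h using Nat.le_induction with
  | base => exact le_rfl
  | succ s _ ih =>
    have := S.Sg_double (2 ^ s) L f hf
    rw [pow_succ, mul_comm]
    exact this.trans ih

/-- monotonicity in all entries -/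
lemma Sg_mono_pow (L L' : List ℕ) (h : List.Forall₂ (fun s r => r ≤ s) L L') :
    ∀ f : X → ℂ, B1 f → S.Sg (L.map (2 ^ ·)) f ≤ S.Sg (L'.map (2 ^ ·)) f := by
  induction h with
  | nil => intro f _; exact le_rfl
  | @cons s r L L' hrs _ ih =>
    intro f hf
    refine (S.Sg_head_pow r s hrs (L.map (2 ^ ·)) f hf).trans ?_
    simp only [List.map_cons, Sg]
    gcongr with a _ b _
    exact ih _ (hf.dd S a b)

lemma Sk_eq_Sg (k M : ℕ) : ∀ f : X → ℂ, S.Sk k M f = S.Sg (List.replicate k M) f := by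
  induction k with
  | zero => intro f; rfl
  | succ k ih =>
    intro f
    simp only [Sk, List.replicate_succ, Sg, ih]

end Sys

/-- REC-2a: the box averages decrease along powers of two -/
theorem Sk_anti (S : Sys X) (k : ℕ) (f : X → ℂ) (hf : B1 f) (r s : ℕ) (h : r ≤ s) :
    S.Sk k (2 ^ s) f ≤ S.Sk k (2 ^ r) f := by
  rw [S.Sk_eq_Sg, S.Sk_eq_Sg]
  have := S.Sg_mono_pow (List.replicate k s) (List.replicate k r) (by
    induction k with
    | zero => exact List.Forall₂.nil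
    | succ k ih => exact List.Forall₂.cons h ih) f hf
  simpa using this

end Pool.Agent.Helper50.Rec
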